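import Pool.Agent.E8helper49.PC.Stm

/-! Piece THR1 of project PC (MP_02f36d_nt): the primes above `3` of a field inside `Ω`. -/

set_option autoImplicit false

namespace Pool.Agent.E8helper44.PC

open NumberField Module Pool.Agent.E8helper49.PC
open scoped Pointwise

noncomputable section

lemma lies3 {K : Type} [Field K] [NumberField K] (P : Ideal (𝓞 K)) [hP : P.IsPrime]
    (h3 : (3 : 𝓞 K) ∈ P) : P.LiesOver (Ideal.span {(3 : ℤ)}) := by
  refine (Ideal.liesOver_span_iff hP.ne_top Int.prime_three).2 ?_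
  simpa using h3

lemma even_ram {K : Type} [Field K] [NumberField K] {x : K} (hx : x ^ 2 + x + 1 = 0)
    (P : Ideal (𝓞 K)) [hP : P.IsPrime] (h3 : (3 : 𝓞 K) ∈ P) : Even (P.ramificationIdx ℤ) := by
  classical
  have hint : IsIntegral ℤ x := by
    refine ⟨Polynomial.X ^ 2 + Polynomial.X + 1, ?_, ?_⟩
    · monicity!
    · simpa using hx
  let w : 𝓞 K := ⟨x, hint⟩
  have hw : w ^ 2 + w + 1 = 0 := by
    apply RingOfIntegers.ext
    push_cast
    exact hx
  have hth : (1 + 2 * w) ^ 2 = -3 := by linear_combination 4 * hw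
  have hl := lies3 P h3
  have hmap : (Ideal.span {(3 : ℤ)}).map (algebraMap ℤ (𝓞 K)) =
      (Ideal.span {(1 + 2 * w : 𝓞 K)}) ^ 2 := by
    rw [Ideal.map_span, Set.image_singleton, Ideal.span_singleton_pow, hth,
      Ideal.span_singleton_neg]
    simp
  have h30 : (Ideal.span {(3 : ℤ)}).map (algebraMap ℤ (𝓞 K)) ≠ ⊥ := by
    rw [Ideal.map_span, Set.image_singleton]
    simp
  rw [Ideal.IsDedekindDomain.ramificationIdx_eq_normalizedFactors_count (Ideal.span {(3 : ℤ)}) P h30,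
    hmap, UniqueFactorizationMonoid.normalizedFactors_pow, Multiset.count_nsmul]
  exact even_two_mul _

/-- the primes above `3` of `Ω` -/
lemma main (hG : S_GRP) (hS : S_SPLIT) {M : Finset ℕ} {Ω : Type} [Field Ω] [NumberField Ω]
    (hM : ∀ l ∈ M, l.Prime ∧ l % 9 = 1) (hC : Clo M Ω) (P : Ideal (𝓞 Ω)) [hP : P.IsPrime]
    (h3 : (3 : 𝓞 Ω) ∈ P) : P.ramificationIdx ℤ = 2 ∧ P.inertiaDeg ℤ = 1 := by
  classical
  obtain ⟨hgal, -⟩ := hG M Ω (fun l hl => (hM l hl).1.pos) hC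
  obtain ⟨ω, r, hω, -⟩ := id hC
  have hgg : IsGaloisGroup Gal(Ω/ℚ) ℤ (𝓞 Ω) := IsGaloisGroup.of_isFractionRing Gal(Ω/ℚ) ℤ (𝓞 Ω) ℚ Ω
  have hl := lies3 P h3
  have hpr : (Ideal.span {(3 : ℤ)}).IsPrime := by
    rw [Ideal.span_singleton_prime (by norm_num)]
    exact Int.prime_three
  have hcard : Nat.card (MulAction.stabilizer Gal(Ω/ℚ) P) =
      P.ramificationIdx ℤ * P.inertiaDeg ℤ := by
    rw [Ideal.card_stabilizer_eq (G := Gal(Ω/ℚ)) (Ideal.span {(3 : ℤ)}) P,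
      Ideal.ramificationIdxIn_eq_ramificationIdx (Ideal.span {(3 : ℤ)}) P Gal(Ω/ℚ),
      Ideal.inertiaDegIn_eq_inertiaDeg (Ideal.span {(3 : ℤ)}) P Gal(Ω/ℚ)]
  have htriv : ∀ σ ∈ MulAction.stabilizer Gal(Ω/ℚ) P, σ ω = ω → σ = 1 := by
    intro σ hσ hσω
    refine hS M Ω hM hC ω hω P hP h3 σ ?_ hσω
    intro x y hy hx
    have e : y = σ • x := by
      apply RingOfIntegers.ext
      rw [hy]
      rfl
    rw [e]
    have : σ • x ∈ σ • P := Ideal.smul_mem_pointwise_smul σ x P hx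
    rwa [MulAction.mem_stabilizer_iff.1 hσ] at this
  have hle : Nat.card (MulAction.stabilizer Gal(Ω/ℚ) P) ≤ 2 := by
    have hroot : ∀ σ : Gal(Ω/ℚ), σ ω ∈ ({ω, -1 - ω} : Finset Ω) := by
      intro σ
      have h1 : (σ ω) ^ 2 + σ ω + 1 = 0 := by
        have := congrArg σ hω
        simpa using this
      have h2 : (σ ω - ω) * (σ ω - (-1 - ω)) = 0 := by linear_combination h1 - hω
      rcases mul_eq_zero.1 h2 with h | h
      · simp [sub_eq_zero.1 h]
      · simp [sub_eq_zero.1 h]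
    have hinj : Function.Injective
        (fun σ : MulAction.stabilizer Gal(Ω/ℚ) P => (⟨σ.1 ω, hroot σ.1⟩ : ({ω, -1 - ω} : Finset Ω))) := by
      intro σ τ h
      have h1 : σ.1 ω = τ.1 ω := congrArg Subtype.val h
      have h2 : (τ.1⁻¹ * σ.1) = 1 := by
        refine htriv _ (mul_mem (inv_mem τ.2) σ.2) ?_
        rw [AlgEquiv.mul_apply, h1]
        exact AlgEquiv.symm_apply_apply _ _
      apply Subtype.ext
      exact (inv_mul_eq_one.1 h2).symm
    calc Nat.card (MulAction.stabilizer Gal(Ω/ℚ) P) ≤ Nat.card (({ω, -1 - ω} : Finset Ω)) :=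
          Nat.card_le_card_of_injective _ hinj
      _ ≤ 2 := by
          rw [Nat.card_eq_fintype_card, Fintype.card_coe]
          exact Finset.card_le_two
  have he := even_ram hω P h3
  have he0 : 0 < P.ramificationIdx ℤ := P.ramificationIdx_pos ℤ
  have hf0 : 0 < P.inertiaDeg ℤ := P.inertiaDeg_pos ℤ
  rw [hcard] at hle
  obtain ⟨m, hm⟩ := he
  have hm0 : 0 < m := by omega
  have h1 : (m + m) * P.inertiaDeg ℤ ≤ 2 := hm ▸ hle
  have h2 : m * P.inertiaDeg ℤ ≤ 1 := by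
    have : (m + m) * P.inertiaDeg ℤ = 2 * (m * P.inertiaDeg ℤ) := by ring
    omega
  have h4 : 0 < m * P.inertiaDeg ℤ := Nat.mul_pos hm0 hf0
  have h5 : m * P.inertiaDeg ℤ = 1 := by omega
  have h6 := Nat.eq_one_of_mul_eq_one_right h5
  have h7 := Nat.eq_one_of_mul_eq_one_left h5
  omega

/-- THR1 -/
theorem t_THR1 : S_GRP → S_SPLIT → S_THR1 := by
  intro hG hS M Ω _ _ hM hC F _ _ hF P hP h3
  obtain ⟨φ⟩ := hF
  let _ : Algebra F Ω := φ.toAlgebra
  obtain ⟨⟨Q, hQ, hQP⟩⟩ := (inferInstance : Nonempty (Ideal.primesOver P (𝓞 Ω)))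
  have hQ3 : (3 : 𝓞 Ω) ∈ Q := by
    have h : (3 : 𝓞 F) ∈ Q.under (𝓞 F) := by
      rw [← Ideal.over_def Q P]
      exact h3
    rw [Ideal.mem_comap] at h
    have h5 : algebraMap (𝓞 F) (𝓞 Ω) 3 = 3 := map_ofNat _ 3
    rwa [h5] at h
  obtain ⟨h1, h2⟩ := main hG hS hM hC Q hQ3
  have e1 : P.ramificationIdx ℤ ∣ 2 := by
    rw [← h1]
    exact Ideal.ramificationIdx_below_dvd P Q
  have e2 : P.inertiaDeg ℤ ∣ 1 := by
    rw [← h2]
    exact Ideal.inertiaDeg_below_dvd P Q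
  refine ⟨Nat.dvd_one.1 e2, (Nat.dvd_prime Nat.prime_two).1 e1, ?_⟩
  rintro ⟨x, hx⟩
  have h := even_ram hx P h3
  rcases (Nat.dvd_prime Nat.prime_two).1 e1 with h4 | h4
  · rw [h4] at h
    exact absurd h (by decide)
  · exact h4

end

end Pool.Agent.E8helper44.PC
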